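import Mathlib

/-!
# Divisibility of the number of solutions of `w ∈ K` by the group order

For a word `w` in at least two variables and a conjugation invariant set `K` of a finite group
`Q`, the number of tuples `y` with `w(y) ∈ K` is divisible by `|Q|`.
-/

open scoped BigOperators Classical

noncomputable section

namespace Pool.Agent.X256.Word

lemma dvd_sum_of_stab {Q : Type} [Group Q] [Finite Q] {X : Type} [Fintype X] [MulAction Q X]
    (f : X → ℕ) (hinv : ∀ (q : Q) (x : X), f (q • x) = f x)
    (hdvd : ∀ x, Nat.card (MulAction.stabilizer Q x) ∣ f x) :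
    Nat.card Q ∣ ∑ x, f x := by
  have h1 : ∑ x, f x = ∑ ω : MulAction.orbitRel.Quotient Q X,
      ∑ x ∈ Finset.univ.filter (fun x => (Quotient.mk'' x : MulAction.orbitRel.Quotient Q X) = ω),
        f x := by
    rw [Finset.sum_fiberwise]
  rw [h1]
  refine Finset.dvd_sum fun ω _ => ?_
  induction ω using Quotient.inductionOn' with
  | h x0 =>
    have h2 : ∀ x ∈ Finset.univ.filter (fun x =>
        (Quotient.mk'' x : MulAction.orbitRel.Quotient Q X) = Quotient.mk'' x0), f x = f x0 := by
      intro x hx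
      have h3 := (Finset.mem_filter.mp hx).2
      have h4 : (MulAction.orbitRel Q X) x x0 := Quotient.eq''.mp h3
      rw [MulAction.orbitRel_apply, MulAction.mem_orbit_iff] at h4
      obtain ⟨q, hq⟩ := h4
      rw [← hq, hinv]
    rw [Finset.sum_congr rfl h2, Finset.sum_const, smul_eq_mul]
    have h5 : (Finset.univ.filter (fun x =>
        (Quotient.mk'' x : MulAction.orbitRel.Quotient Q X) = Quotient.mk'' x0)).card =
        Nat.card (MulAction.orbit Q x0) := by
      rw [Nat.card_eq_fintype_card, ← Set.toFinset_card]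
      congr 1
      ext x
      simp only [Finset.mem_filter, Finset.mem_univ, true_and, Set.mem_toFinset]
      constructor
      · intro h
        have h4 : (MulAction.orbitRel Q X) x x0 := Quotient.eq''.mp h
        rwa [MulAction.orbitRel_apply] at h4
      · intro h
        apply Quotient.eq''.mpr
        change (MulAction.orbitRel Q X) x x0
        rwa [MulAction.orbitRel_apply]
    rw [h5]
    have h6 : Nat.card (MulAction.orbit Q x0) * Nat.card (MulAction.stabilizer Q x0) =
        Nat.card Q := by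
      rw [← Nat.card_prod]
      exact Nat.card_congr (MulAction.orbitProdStabilizerEquivGroup Q x0)
    obtain ⟨c, hc⟩ := hdvd x0
    rw [hc, ← h6]
    exact ⟨c, by ring⟩

section count

variable {Q : Type} [Group Q] [Fintype Q] {n : ℕ}

/-- the conjugates `t^k z_j t^{-k}`, `k ≤ M` -/
def A (M : ℕ) (p : Q × (Fin n → Q)) : Fin (M + 1) → Fin n → Q :=
  fun k j => p.1 ^ (k : ℕ) * p.2 j * (p.1 ^ (k : ℕ))⁻¹

lemma A_shift (M : ℕ) (t c : Q) (z : Fin n → Q)
    (hc : ∀ k j, c * A M (t, z) k j = A M (t, z) k j * c) : A M (t * c⁻¹, z) = A M (t, z) := by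
  have key : ∀ (k : ℕ) (hk : k < M + 1) (j : Fin n),
      (t * c⁻¹) ^ k * z j * ((t * c⁻¹) ^ k)⁻¹ = t ^ k * z j * (t ^ k)⁻¹ := by
    intro k
    induction k with
    | zero => intro _ j; simp
    | succ k ih =>
      intro hk j
      have h1 := ih (by omega) j
      have h2 := hc ⟨k, by omega⟩ j
      simp only [A] at h2
      have h3 : (t * c⁻¹) ^ (k + 1) * z j * ((t * c⁻¹) ^ (k + 1))⁻¹ =
          t * c⁻¹ * ((t * c⁻¹) ^ k * z j * ((t * c⁻¹) ^ k)⁻¹) * (t * c⁻¹)⁻¹ := by
        rw [pow_succ', mul_inv_rev ((t * c⁻¹)) ((t * c⁻¹) ^ k)]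
        simp only [mul_assoc]
      have h4 : t ^ (k + 1) * z j * (t ^ (k + 1))⁻¹ =
          t * (t ^ k * z j * (t ^ k)⁻¹) * t⁻¹ := by
        rw [pow_succ']
        group
      rw [h3, h4, h1]
      set a := t ^ k * z j * (t ^ k)⁻¹ with ha
      have h5 : c⁻¹ * a * c = a := by
        rw [mul_assoc, ← h2, inv_mul_cancel_left]
      calc t * c⁻¹ * a * (t * c⁻¹)⁻¹ = t * (c⁻¹ * a * c) * t⁻¹ := by group
        _ = t * a * t⁻¹ := by rw [h5]
  funext k j
  exact key k k.2 j

lemma A_conj (M : ℕ) (q : Q) (p : Q × (Fin n → Q)) :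
    A M (q * p.1 * q⁻¹, fun j => q * p.2 j * q⁻¹) = fun k j => q * A M p k j * q⁻¹ := by
  funext k j
  simp only [A, conj_pow]
  group

lemma count_dvd (M : ℕ) (P : Q × (Fin n → Q) → Prop)
    (hP1 : ∀ p p', A M p = A M p' → P p → P p')
    (hP2 : ∀ (q : Q) p, P p → P (q * p.1 * q⁻¹, fun j => q * p.2 j * q⁻¹)) :
    Nat.card Q ∣ Nat.card {p // P p} := by
  -- fibres of `A M`
  let f : (Fin (M + 1) → Fin n → Q) → ℕ := fun a => Nat.card {p // A M p = a ∧ P p}
  have hsum : ∑ a, f a = Nat.card {p // P p} := by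
    have : Nat.card {p // P p} = Nat.card (Σ a : (Fin (M + 1) → Fin n → Q),
        {p : Q × (Fin n → Q) // A M p = a ∧ P p}) := by
      refine Nat.card_congr ?_
      exact {
        toFun := fun p => ⟨A M p.1, p.1, rfl, p.2⟩
        invFun := fun s => ⟨s.2.1, s.2.2.2⟩
        left_inv := fun p => rfl
        right_inv := by
          rintro ⟨a, p, h1, h2⟩
          subst h1
          rfl }
    rw [this, Nat.card_sigma]
  rw [← hsum]
  have hcard : Nat.card (ConjAct Q) = Nat.card Q := Nat.card_congr ConjAct.ofConjAct.toEquiv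
  rw [← hcard]
  apply dvd_sum_of_stab (Q := ConjAct Q)
  · -- invariance
    intro q a
    have hle : ∀ (q : ConjAct Q) a, f a ≤ f (q • a) := by
      intro q a
      refine Nat.card_le_card_of_injective
        (fun p => ⟨(ConjAct.ofConjAct q * p.1.1 * (ConjAct.ofConjAct q)⁻¹,
          fun j => ConjAct.ofConjAct q * p.1.2 j * (ConjAct.ofConjAct q)⁻¹), ?_, ?_⟩) ?_
      · rw [A_conj, p.2.1]
        funext k j
        simp [ConjAct.smul_def]
      · exact hP2 _ _ p.2.2
      · rintro ⟨⟨t, z⟩, h1⟩ ⟨⟨t', z'⟩, h2⟩ h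
        simp only [Subtype.mk.injEq, Prod.mk.injEq] at h
        obtain ⟨h3, h4⟩ := h
        have h5 : t = t' := by simpa using h3
        have h6 : z = z' := by
          funext j
          simpa using congrFun h4 j
        simp [h5, h6]
    apply le_antisymm
    · have := hle q⁻¹ (q • a)
      simpa using this
    · exact hle q a
  · -- stabilizers act freely on fibres
    intro a
    set S := MulAction.stabilizer (ConjAct Q) a with hS
    have hcomm : ∀ s : S, ∀ k j, ConjAct.ofConjAct (s : ConjAct Q) * a k j =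
        a k j * ConjAct.ofConjAct (s : ConjAct Q) := by
      intro s k j
      have h1 : (s : ConjAct Q) • a = a := s.2
      have h2 := congrFun (congrFun h1 k) j
      simp only [Pi.smul_apply, ConjAct.smul_def] at h2
      exact mul_inv_eq_iff_eq_mul.mp h2
    let act : MulAction S {p : Q × (Fin n → Q) // A M p = a ∧ P p} := {
      smul := fun s p => ⟨(p.1.1 * (ConjAct.ofConjAct (s : ConjAct Q))⁻¹, p.1.2), by
        have h1 : A M (p.1.1 * (ConjAct.ofConjAct (s : ConjAct Q))⁻¹, p.1.2) = A M p.1 := by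
          refine A_shift M p.1.1 (ConjAct.ofConjAct (s : ConjAct Q)) p.1.2 ?_
          intro k j
          have : A M (p.1.1, p.1.2) = a := p.2.1
          rw [this]
          exact hcomm s k j
        exact ⟨h1.trans p.2.1, hP1 _ _ h1.symm p.2.2⟩⟩
      one_smul := by
        rintro ⟨⟨t, z⟩, h⟩
        apply Subtype.ext
        change (t * (ConjAct.ofConjAct ((1 : S) : ConjAct Q))⁻¹, z) = (t, z)
        simp
      mul_smul := by
        rintro s s' ⟨⟨t, z⟩, h⟩
        apply Subtype.ext
        change (t * (ConjAct.ofConjAct ((s * s' : S) : ConjAct Q))⁻¹, z) =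
          (t * (ConjAct.ofConjAct (s' : ConjAct Q))⁻¹ * (ConjAct.ofConjAct (s : ConjAct Q))⁻¹, z)
        simp [mul_assoc] }
    have h1 := dvd_sum_of_stab (Q := S) (X := {p : Q × (Fin n → Q) // A M p = a ∧ P p})
      (fun _ => 1) (fun _ _ => rfl) (by
        rintro ⟨⟨t, z⟩, h⟩
        rw [Nat.dvd_one, Nat.card_eq_one_iff_unique]
        refine ⟨⟨?_⟩, ⟨1⟩⟩
        rintro ⟨s, hs⟩ ⟨s', hs'⟩
        have key : ∀ s : S, s ∈ MulAction.stabilizer S
            (⟨(t, z), h⟩ : {p : Q × (Fin n → Q) // A M p = a ∧ P p}) → s = 1 := by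
          intro s hs
          have h2 : s • (⟨(t, z), h⟩ : {p : Q × (Fin n → Q) // A M p = a ∧ P p}) = ⟨(t, z), h⟩ := hs
          have h3 := congrArg (fun p => p.1.1) h2
          change t * (ConjAct.ofConjAct (s : ConjAct Q))⁻¹ = t at h3
          have h4 : ConjAct.ofConjAct (s : ConjAct Q) = 1 := by simpa using h3
          apply Subtype.ext
          exact ConjAct.ofConjAct.injective h4
        apply Subtype.ext
        exact (key s hs).trans (key s' hs').symm)
    change Nat.card S ∣ Nat.card {p : Q × (Fin n → Q) // A M p = a ∧ P p}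
    simpa [Nat.card_eq_fintype_card] using h1

end count

section words

variable {Q : Type} [Group Q] [Fintype Q]

/-- number of tuples `y` with `w(y) ∈ K` -/
def cnt {r : ℕ} (K : Set Q) (w : FreeGroup (Fin r)) : ℕ :=
  Nat.card {y : Fin r → Q // FreeGroup.lift y w ∈ K}

/-- exponent sum of the `i`-th variable -/
def ex {r : ℕ} (i : Fin r) : FreeGroup (Fin r) →* Multiplicative ℤ :=
  FreeGroup.lift (fun j => if j = i then Multiplicative.ofAdd 1 else 1)

lemma ex_of {r : ℕ} (i j : Fin r) :
    ex i (FreeGroup.of j) = if j = i then Multiplicative.ofAdd 1 else 1 := by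
  simp [ex]

lemma cnt_conj {r : ℕ} (K : Set Q) (hK : ∀ (q k : Q), k ∈ K → q * k * q⁻¹ ∈ K)
    (u w : FreeGroup (Fin r)) : cnt K (u * w * u⁻¹) = cnt K w := by
  unfold cnt
  refine Nat.card_congr (Equiv.subtypeEquivRight fun y => ?_)
  rw [map_mul, map_mul, map_inv]
  constructor
  · intro h
    have := hK (FreeGroup.lift y u)⁻¹ _ h
    simpa [mul_assoc] using this
  · intro h
    exact hK _ _ h

lemma lift_lift {r : ℕ} (f : Fin r → FreeGroup (Fin r)) (y : Fin r → Q) (w : FreeGroup (Fin r)) :
    FreeGroup.lift y (FreeGroup.lift f w) = FreeGroup.lift (fun i => FreeGroup.lift y (f i)) w := by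
  have : (FreeGroup.lift y).comp (FreeGroup.lift f) =
      FreeGroup.lift (fun i => FreeGroup.lift y (f i)) := by
    apply FreeGroup.ext_hom
    intro i
    simp
  exact DFunLike.congr_fun this w

lemma cnt_auto {r : ℕ} (K : Set Q) (f g : Fin r → FreeGroup (Fin r))
    (h1 : ∀ i, FreeGroup.lift f (g i) = FreeGroup.of i)
    (h2 : ∀ i, FreeGroup.lift g (f i) = FreeGroup.of i)
    (w : FreeGroup (Fin r)) : cnt K (FreeGroup.lift f w) = cnt K w := by
  have hT : ∀ (f g : Fin r → FreeGroup (Fin r)) (_ : ∀ i, FreeGroup.lift f (g i) = FreeGroup.of i)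
      (y : Fin r → Q), (fun i => FreeGroup.lift (fun j => FreeGroup.lift y (f j)) (g i)) = y := by
    intro f g h y
    funext i
    rw [← lift_lift, h]
    simp
  let T : (Fin r → Q) ≃ (Fin r → Q) := {
    toFun := fun y i => FreeGroup.lift y (f i)
    invFun := fun y i => FreeGroup.lift y (g i)
    left_inv := fun y => hT f g h1 y
    right_inv := fun y => hT g f h2 y }
  unfold cnt
  refine Nat.card_congr (T.subtypeEquiv fun y => ?_)
  rw [lift_lift]
  rfl

lemma mem_closure_of_ex {n : ℕ} (w : FreeGroup (Fin (n + 1))) :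
    w * (FreeGroup.of 0) ^ (-(Multiplicative.toAdd (ex 0 w))) ∈
      Subgroup.closure {u : FreeGroup (Fin (n + 1)) | ∃ (k : ℤ) (j : Fin n),
        u = (FreeGroup.of 0) ^ k * FreeGroup.of j.succ * ((FreeGroup.of 0) ^ k)⁻¹} := by
  set N := Subgroup.closure {u : FreeGroup (Fin (n + 1)) | ∃ (k : ℤ) (j : Fin n),
        u = (FreeGroup.of 0) ^ k * FreeGroup.of j.succ * ((FreeGroup.of 0) ^ k)⁻¹} with hN
  have hconj : ∀ (m : ℤ) (u : FreeGroup (Fin (n + 1))), u ∈ N →
      (FreeGroup.of 0) ^ m * u * ((FreeGroup.of 0) ^ m)⁻¹ ∈ N := by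
    intro m u hu
    induction hu using Subgroup.closure_induction with
    | mem x hx =>
      obtain ⟨k, j, rfl⟩ := hx
      apply Subgroup.subset_closure
      refine ⟨m + k, j, ?_⟩
      rw [zpow_add]
      group
    | one => simpa using N.one_mem
    | mul x y _ _ hx hy =>
      have := N.mul_mem hx hy
      convert this using 1
      group
    | inv x _ hx =>
      have := N.inv_mem hx
      convert this using 1
      group
  induction w using FreeGroup.induction_on with
  | C1 => simpa using N.one_mem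
  | of i =>
    refine Fin.cases ?_ (fun j => ?_) i
    · rw [ex_of, if_pos rfl]
      simpa using N.one_mem
    · rw [ex_of, if_neg (Fin.succ_ne_zero j)]
      apply Subgroup.subset_closure
      exact ⟨0, j, by simp⟩
  | inv_of i _ =>
    rw [map_inv, ex_of]
    refine Fin.cases ?_ (fun j => ?_) i
    · rw [if_pos rfl]
      simpa using N.one_mem
    · rw [if_neg (Fin.succ_ne_zero j)]
      have : FreeGroup.of j.succ ∈ N := by
        apply Subgroup.subset_closure
        exact ⟨0, j, by simp⟩
      simpa using N.inv_mem this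
  | mul x y hx hy =>
    rw [map_mul, toAdd_mul]
    set a := Multiplicative.toAdd (ex 0 x)
    set b := Multiplicative.toAdd (ex 0 y)
    have h1 := N.mul_mem hx (hconj a _ hy)
    convert h1 using 1
    group

/-- the bounded version of the generating set -/
def gens (n : ℕ) (a b : ℤ) : Set (FreeGroup (Fin (n + 1))) :=
  {u | ∃ (k : ℤ) (j : Fin n), a ≤ k ∧ k ≤ b ∧
        u = (FreeGroup.of 0) ^ k * FreeGroup.of j.succ * ((FreeGroup.of 0) ^ k)⁻¹}

lemma gens_mono (n : ℕ) {a a' b b' : ℤ} (h1 : a' ≤ a) (h2 : b ≤ b') :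
    gens n a b ⊆ gens n a' b' := by
  rintro u ⟨k, j, h3, h4, rfl⟩
  exact ⟨k, j, h1.trans h3, h4.trans h2, rfl⟩

lemma exists_bound {n : ℕ} (w : FreeGroup (Fin (n + 1)))
    (hw : w ∈ Subgroup.closure {u : FreeGroup (Fin (n + 1)) | ∃ (k : ℤ) (j : Fin n),
        u = (FreeGroup.of 0) ^ k * FreeGroup.of j.succ * ((FreeGroup.of 0) ^ k)⁻¹}) :
    ∃ m : ℕ, w ∈ Subgroup.closure (gens n (-m) m) := by
  induction hw using Subgroup.closure_induction with
  | mem x hx =>
    obtain ⟨k, j, rfl⟩ := hx
    refine ⟨k.natAbs, Subgroup.subset_closure ⟨k, j, ?_, ?_, rfl⟩⟩ <;> omega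
  | one => exact ⟨0, Subgroup.one_mem _⟩
  | mul x y _ _ hx hy =>
    obtain ⟨a, ha⟩ := hx
    obtain ⟨b, hb⟩ := hy
    refine ⟨a + b, Subgroup.mul_mem _ (Subgroup.closure_mono (gens_mono n ?_ ?_) ha)
      (Subgroup.closure_mono (gens_mono n ?_ ?_) hb)⟩ <;> push_cast <;> omega
  | inv x _ hx =>
    obtain ⟨a, ha⟩ := hx
    exact ⟨a, Subgroup.inv_mem _ ha⟩

lemma dvd_of_ex_zero {n : ℕ} (K : Set Q) (hK : ∀ (q k : Q), k ∈ K → q * k * q⁻¹ ∈ K)
    (w : FreeGroup (Fin (n + 1))) (hw : ex 0 w = 1) : Nat.card Q ∣ cnt K w := by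
  have h1 := mem_closure_of_ex w
  rw [hw] at h1
  simp only [toAdd_one, neg_zero, zpow_zero, mul_one] at h1
  obtain ⟨m, hm⟩ := exists_bound w h1
  set w' := (FreeGroup.of 0) ^ (m : ℤ) * w * ((FreeGroup.of 0) ^ (m : ℤ))⁻¹ with hw'
  have h2 : w' ∈ Subgroup.closure (gens n 0 (2 * m)) := by
    rw [hw']
    clear_value w'
    clear hw' h1 hw
    induction hm using Subgroup.closure_induction with
    | mem x hx =>
      obtain ⟨k, j, h3, h4, rfl⟩ := hx
      apply Subgroup.subset_closure
      refine ⟨m + k, j, by omega, by omega, ?_⟩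
      rw [zpow_add]
      group
    | one => simpa using Subgroup.one_mem _
    | mul x y _ _ hx hy =>
      have := Subgroup.mul_mem _ hx hy
      convert this using 1
      group
    | inv x _ hx =>
      have := Subgroup.inv_mem _ hx
      convert this using 1
      group
  have h3 : cnt K w = cnt K w' := (cnt_conj K hK _ w).symm
  rw [h3]
  -- move to pairs
  let E : (Fin (n + 1) → Q) ≃ Q × (Fin n → Q) := Fin.consEquiv (fun _ => Q) |>.symm
  have hE : ∀ y, (E y).1 = y 0 ∧ ∀ j, (E y).2 j = y j.succ := fun y => ⟨rfl, fun j => rfl⟩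
  have h4 : cnt K w' = Nat.card {p : Q × (Fin n → Q) // FreeGroup.lift (E.symm p) w' ∈ K} := by
    unfold cnt
    refine Nat.card_congr (E.subtypeEquiv fun y => ?_)
    rw [Equiv.symm_apply_apply]
  rw [h4]
  have hval : ∀ p p' : Q × (Fin n → Q), A (2 * m) p = A (2 * m) p' →
      FreeGroup.lift (E.symm p) w' = FreeGroup.lift (E.symm p') w' := by
    intro p p' h
    clear_value w'
    clear h3 h4 hw'
    induction h2 using Subgroup.closure_induction with
    | mem x hx =>
      obtain ⟨k, j, h3, h4, rfl⟩ := hx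
      obtain ⟨k, rfl⟩ := Int.eq_ofNat_of_zero_le h3
      have h5 := congrFun (congrFun h ⟨k, by omega⟩) j
      simp only [A] at h5
      simp only [map_mul, map_inv, map_pow, FreeGroup.lift_apply_of, zpow_natCast]
      exact h5
    | one => simp
    | mul x y _ _ hx hy => rw [map_mul, map_mul, hx, hy]
    | inv x _ hx => rw [map_inv, map_inv, hx]
  refine count_dvd (2 * m) _ ?_ ?_
  · intro p p' h hp
    rw [← hval p p' h]
    exact hp
  · intro q p hp
    have : FreeGroup.lift (E.symm (q * p.1 * q⁻¹, fun j => q * p.2 j * q⁻¹)) w' =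
        q * FreeGroup.lift (E.symm p) w' * q⁻¹ := by
      have h5 : FreeGroup.lift (E.symm (q * p.1 * q⁻¹, fun j => q * p.2 j * q⁻¹)) =
          (MulAut.conj q).toMonoidHom.comp (FreeGroup.lift (E.symm p)) := by
        apply FreeGroup.ext_hom
        intro i
        refine Fin.cases ?_ (fun j => ?_) i
        · simp only [FreeGroup.lift_apply_of, MonoidHom.comp_apply]
          rfl
        · simp only [FreeGroup.lift_apply_of, MonoidHom.comp_apply]
          rfl
      rw [h5]
      rfl
    rw [this]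
    exact hK _ _ hp

/-- transvection `x_1 ↦ x_1 x_0^k` -/
def trv (n : ℕ) (k : ℤ) : Fin (n + 2) → FreeGroup (Fin (n + 2)) :=
  fun i => if i = 1 then FreeGroup.of 1 * (FreeGroup.of 0) ^ k else FreeGroup.of i

/-- the swap of the first two variables -/
def swp (n : ℕ) : Fin (n + 2) → FreeGroup (Fin (n + 2)) :=
  fun i => FreeGroup.of (Equiv.swap 0 1 i)

lemma trv_inv (n : ℕ) (k : ℤ) (i : Fin (n + 2)) :
    FreeGroup.lift (trv n k) (trv n (-k) i) = FreeGroup.of i := by
  have h0 : trv n k 0 = FreeGroup.of 0 := by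
    simp [trv]
  have h1 : trv n k 1 = FreeGroup.of 1 * (FreeGroup.of 0) ^ k := by
    simp [trv]
  by_cases h : i = 1
  · subst h
    have : trv n (-k) 1 = FreeGroup.of 1 * (FreeGroup.of 0) ^ (-k) := by simp [trv]
    rw [this, map_mul, map_zpow, FreeGroup.lift_apply_of, FreeGroup.lift_apply_of, h0, h1]
    group
  · have : trv n (-k) i = FreeGroup.of i := by simp [trv, h]
    rw [this, FreeGroup.lift_apply_of]
    simp [trv, h]

lemma cnt_trv {n : ℕ} (K : Set Q) (k : ℤ) (w : FreeGroup (Fin (n + 2))) :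
    cnt K (FreeGroup.lift (trv n k) w) = cnt K w := by
  apply cnt_auto K (trv n k) (trv n (-k))
  · exact trv_inv n k
  · intro i
    have := trv_inv n (-k) i
    rwa [neg_neg] at this

lemma cnt_swp {n : ℕ} (K : Set Q) (w : FreeGroup (Fin (n + 2))) :
    cnt K (FreeGroup.lift (swp n) w) = cnt K w := by
  apply cnt_auto K (swp n) (swp n)
  · intro i; simp [swp]
  · intro i; simp [swp]

lemma ex_swp0 {n : ℕ} (w : FreeGroup (Fin (n + 2))) :
    ex 0 (FreeGroup.lift (swp n) w) = ex 1 w := by
  have : (ex 0).comp (FreeGroup.lift (swp n)) = ex 1 := by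
    apply FreeGroup.ext_hom
    intro i
    rw [MonoidHom.comp_apply, FreeGroup.lift_apply_of, swp, ex_of, ex_of]
    by_cases h : i = 1
    · subst h; simp
    · rw [if_neg h, if_neg]
      intro h2
      apply h
      have := congrArg (Equiv.swap 0 1) h2
      simpa using this
  exact DFunLike.congr_fun this w

lemma ex_swp1 {n : ℕ} (w : FreeGroup (Fin (n + 2))) :
    ex 1 (FreeGroup.lift (swp n) w) = ex 0 w := by
  have : (ex 1).comp (FreeGroup.lift (swp n)) = ex 0 := by
    apply FreeGroup.ext_hom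
    intro i
    rw [MonoidHom.comp_apply, FreeGroup.lift_apply_of, swp, ex_of, ex_of]
    by_cases h : i = 0
    · subst h; simp
    · rw [if_neg h, if_neg]
      intro h2
      apply h
      have := congrArg (Equiv.swap 0 1) h2
      simpa using this
  exact DFunLike.congr_fun this w

lemma ex_trv0 {n : ℕ} (k : ℤ) (w : FreeGroup (Fin (n + 2))) :
    ex 0 (FreeGroup.lift (trv n k) w) = ex 0 w * (ex 1 w) ^ k := by
  have : (ex 0).comp (FreeGroup.lift (trv n k)) = ex 0 * (ex 1) ^ k := by
    apply FreeGroup.ext_hom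
    intro i
    rw [MonoidHom.comp_apply, FreeGroup.lift_apply_of, MonoidHom.mul_apply]
    have hz : ((ex 1) ^ k : FreeGroup (Fin (n + 2)) →* Multiplicative ℤ) (FreeGroup.of i) =
      (ex 1 (FreeGroup.of i)) ^ k := rfl
    rw [hz]
    by_cases h : i = 1
    · subst h
      simp [trv, ex_of]
    · simp [trv, ex_of, h]
  exact DFunLike.congr_fun this w

lemma ex_trv1 {n : ℕ} (k : ℤ) (w : FreeGroup (Fin (n + 2))) :
    ex 1 (FreeGroup.lift (trv n k) w) = ex 1 w := by
  have : (ex 1).comp (FreeGroup.lift (trv n k)) = ex 1 := by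
    apply FreeGroup.ext_hom
    intro i
    rw [MonoidHom.comp_apply, FreeGroup.lift_apply_of]
    by_cases h : i = 1
    · subst h
      simp [trv, ex_of]
    · simp [trv, ex_of, h]
  exact DFunLike.congr_fun this w

/-- **Divisibility.** For a word in at least two variables and a conjugation invariant set `K`,
`|Q|` divides the number of tuples with `w(y) ∈ K`. -/
theorem dvd_cnt {n : ℕ} (K : Set Q) (hK : ∀ (q k : Q), k ∈ K → q * k * q⁻¹ ∈ K)
    (w : FreeGroup (Fin (n + 2))) : Nat.card Q ∣ cnt K w := by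
  have main : ∀ (m : ℕ) (w : FreeGroup (Fin (n + 2))),
      (Multiplicative.toAdd (ex 1 w)).natAbs = m → Nat.card Q ∣ cnt K w := by
    intro m
    induction m using Nat.strong_induction_on with
    | _ m ih =>
      intro w hm
      by_cases h0 : Multiplicative.toAdd (ex 1 w) = 0
      · rw [← cnt_swp K w]
        apply dvd_of_ex_zero K hK
        rw [ex_swp0]
        exact h0
      · set a := Multiplicative.toAdd (ex 0 w) with ha
        set b := Multiplicative.toAdd (ex 1 w) with hb
        rw [← cnt_trv K (-(a / b)) w, ← cnt_swp K]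
        have h1 : Multiplicative.toAdd (ex 1 (FreeGroup.lift (swp n)
            (FreeGroup.lift (trv n (-(a / b))) w))) = a % b := by
          rw [ex_swp1, ex_trv0, toAdd_mul, toAdd_zpow, ← ha, ← hb, smul_eq_mul]
          have := Int.emod_add_mul_ediv a b
          linarith
        refine ih (a % b).natAbs ?_ _ (by rw [h1])
        rw [← hm]
        have h2 := Int.emod_nonneg a h0
        have h3 := Int.emod_lt_abs a h0
        rw [Int.abs_eq_natAbs] at h3
        omega
  exact main _ w rfl

end words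

end Pool.Agent.X256.Word
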